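import Mathlib

/-!
Signed `B_h` sets of size three in cyclic groups: Day's bound
`g_±(3,h) ≤ 2h^3 + 2h^2 + 8h + 1` for every positive integer `h`.
-/

namespace Pool.Agent.Results.MP_66a881_co.DayBound

/-- `Z^m(h)`: the integer vectors of length `m` whose absolute values sum to `h`. -/
def ZVec (m h : ℕ) : Set (Fin m → ℤ) := {l | ∑ i, |l i| = (h : ℤ)}

/-- `a_0, …, a_{m-1}` are `m` distinct elements of `Z_n` and the set they form is a `B_h` set
over `Z`: the map `l ↦ ∑ l_i a_i` from `Z^m(h)` to `Z_n` is injective. -/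
def IsSignedBh (n m h : ℕ) (a : Fin m → ZMod n) : Prop :=
  Function.Injective a ∧ Set.InjOn (fun l : Fin m → ℤ => ∑ i, l i • a i) (ZVec m h)

/-- `σ_±(Z_n, h)`: the largest size of a `B_h` set over `Z` in `Z_n`. -/
noncomputable def sigmaPM (n h : ℕ) : ℕ :=
  sSup {m : ℕ | ∃ a : Fin m → ZMod n, IsSignedBh n m h a}

/-- `g_±(m, h)`: the least positive integer `g` such that `σ_±(Z_n, h) ≥ m` for all `n ≥ g`. -/
noncomputable def gPM (m h : ℕ) : ℕ :=
  sInf {g : ℕ | 0 < g ∧ ∀ n : ℕ, g ≤ n → m ≤ sigmaPM n h}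

/-- The number-theoretic core, `h` even. -/
lemma core_even_aux (h x y z : ℤ) (hh : 2 ≤ h) (hev : Even h) (hz : 0 ≤ z)
    (heq : x + h * y + (h ^ 2 + h + 1) * z = 0)
    (hle : |x| + |y| + |z| ≤ 2 * h) (hpar : Even (|x| + |y| + |z|)) : x = 0 ∧ y = 0 ∧ z = 0 := by
  obtain ⟨k, hk⟩ := hev
  obtain ⟨q, hq⟩ := hpar
  rw [abs_of_nonneg hz] at hle hq
  have hx1 : x ≤ |x| := le_abs_self x
  have hx2 : -x ≤ |x| := neg_le_abs x
  have hy1 : y ≤ |y| := le_abs_self y
  have hy2 : -y ≤ |y| := neg_le_abs y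
  have hx0 : 0 ≤ |x| := abs_nonneg x
  have hy0 : 0 ≤ |y| := abs_nonneg y
  have hz2 : z < 2 := by
    by_contra hcon
    push Not at hcon
    nlinarith [mul_nonneg (by linarith : (0:ℤ) ≤ h) hy0, mul_nonneg (by linarith : (0:ℤ) ≤ h - 1) hx0]
  have hz3 : z = 0 ∨ z = 1 := by omega
  rcases hz3 with hz0 | hz1
  · subst hz0
    have hxe : x = -(h * y) := by linarith
    have habs : |x| = h * |y| := by
      rw [hxe, abs_neg, abs_mul, abs_of_nonneg (by linarith : (0:ℤ) ≤ h)]
    have hy3 : |y| < 2 := by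
      by_contra hcon
      push Not at hcon
      nlinarith
    have hy4 : |y| = 0 ∨ |y| = 1 := by omega
    rcases hy4 with h0 | h1
    · have : y = 0 := abs_eq_zero.mp h0
      subst this
      simp at hxe
      exact ⟨hxe, rfl, rfl⟩
    · exfalso
      rw [habs, h1] at hq
      omega
  · exfalso
    subst hz1
    obtain ⟨s, hs⟩ : ∃ s, y = -(h + 1) + s := ⟨y + (h + 1), by ring⟩
    have hxe : x = -1 - h * s := by rw [hs] at heq; linarith
    rcases lt_trichotomy s 0 with hs0 | hs0 | hs0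
    · -- s < 0
      have h1 : x = -1 + h * (-s) := by rw [hxe]; ring
      have h2 : h * 1 ≤ h * (-s) := mul_le_mul_of_nonneg_left (by omega) (by linarith)
      have h3 : -y = h + 1 + (-s) := by rw [hs]; ring
      have h4 : 1 ≤ -s := by omega
      linarith
    · subst hs0
      have hx3 : x = -1 := by rw [hxe]; ring
      have hy3 : y = -(h+1) := by rw [hs]; ring
      rw [hx3, hy3, abs_neg, abs_neg, abs_one, abs_of_nonneg (by linarith : (0:ℤ) ≤ h + 1)] at hq
      omega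
    · have h1 : -x = 1 + h * s := by rw [hxe]; ring
      have h2 : (h - 1) * 1 ≤ (h - 1) * s := mul_le_mul_of_nonneg_left (by omega) (by linarith)
      have h3 : -y = h + 1 - s := by rw [hs]; ring
      nlinarith

lemma core_odd_aux (h x y z : ℤ) (hh : 1 ≤ h) (hodd : Odd h) (hz : 0 ≤ z)
    (heq : 2 * x + h * y + (h ^ 2 + h + 4) * z = 0)
    (hle : |x| + |y| + |z| ≤ 2 * h) (hpar : Even (|x| + |y| + |z|)) : x = 0 ∧ y = 0 ∧ z = 0 := by
  obtain ⟨k, hk⟩ := hodd
  obtain ⟨q, hq⟩ := hpar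
  rw [abs_of_nonneg hz] at hle hq
  have hx1 : x ≤ |x| := le_abs_self x
  have hx2 : -x ≤ |x| := neg_le_abs x
  have hy1 : y ≤ |y| := le_abs_self y
  have hy2 : -y ≤ |y| := neg_le_abs y
  have hx0 : 0 ≤ |x| := abs_nonneg x
  have hy0 : 0 ≤ |y| := abs_nonneg y
  -- y is even
  have hye : ∃ w, y = 2 * w := by
    have h1 : Even (h * y) := by
      refine ⟨-(x + (k * (k + 1) + (k + 1) ^ 2 + 2 - k ^ 2 - k - (k+1)^2 + 2 * k ^ 2 + 3 * k + 1) * z), ?_⟩
      have : h * y = - (2 * x + (h ^ 2 + h + 4) * z) := by linarith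
      rw [this, hk]
      ring
    rcases Int.even_mul.mp h1 with h2 | h2
    · exfalso
      obtain ⟨r, hr⟩ := h2
      omega
    · obtain ⟨r, hr⟩ := h2
      exact ⟨r, by omega⟩
  obtain ⟨w, hw⟩ := hye
  rcases eq_or_lt_of_le hh with h1 | h1
  · -- h = 1
    subst h1
    have hz1 : z = 0 := by
      have : 8 * z ≤ 4 := by linarith
      omega
    subst hz1
    have hyx : y = -(2 * x) := by linarith
    have habs : |y| = 2 * |x| := by
      rw [hyx, abs_neg, abs_mul, abs_of_nonneg (by norm_num : (0:ℤ) ≤ 2)]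
    have hx3 : |x| = 0 := by omega
    have hx4 : x = 0 := abs_eq_zero.mp hx3
    subst hx4
    exact ⟨rfl, by linarith, rfl⟩
  have hh3 : 3 ≤ h := by omega
  have hz2 : z < 2 := by
    by_contra hcon
    push Not at hcon
    nlinarith [mul_nonneg (by linarith : (0:ℤ) ≤ h) hy0, mul_nonneg (by linarith : (0:ℤ) ≤ h - 2) hx0]
  have hz3 : z = 0 ∨ z = 1 := by omega
  rcases hz3 with hz0 | hz1
  · subst hz0
    have hxe : x = -(h * w) := by rw [hw] at heq; linarith
    have habs : |x| = h * |w| := by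
      rw [hxe, abs_neg, abs_mul, abs_of_nonneg (by linarith : (0:ℤ) ≤ h)]
    have habsy : |y| = 2 * |w| := by
      rw [hw, abs_mul, abs_of_nonneg (by norm_num : (0:ℤ) ≤ 2)]
    have hw0 : 0 ≤ |w| := abs_nonneg w
    have hy3 : |w| < 2 := by
      by_contra hcon
      push Not at hcon
      nlinarith
    have hy4 : |w| = 0 ∨ |w| = 1 := by omega
    rcases hy4 with h0 | h1
    · have : w = 0 := abs_eq_zero.mp h0
      subst this
      simp at hxe hw
      exact ⟨hxe, hw, rfl⟩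
    · exfalso
      rw [habs, habsy, h1] at hq
      omega
  · exfalso
    subst hz1
    obtain ⟨s, hs⟩ : ∃ s, w = -(k + 1) + s := ⟨w + (k + 1), by ring⟩
    have hxe : x = -2 - h * s := by
      rw [hw, hs] at heq
      have h2 : h ^ 2 + h = 2 * (h * (k + 1)) := by rw [hk]; ring
      linarith
    have hy3 : -y = h + 1 - 2 * s := by rw [hw, hs]; omega
    rcases lt_trichotomy s 0 with hs0 | hs0 | hs0
    · have h1 : x = -2 + h * (-s) := by rw [hxe]; ring
      have h2 : h * 1 ≤ h * (-s) := mul_le_mul_of_nonneg_left (by omega) (by linarith)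
      have h4 : 1 ≤ -s := by omega
      linarith
    · subst hs0
      have hx3 : x = -2 := by rw [hxe]; ring
      have hy4 : y = -(h+1) := by linarith
      have h2 : |x| = 2 := by rw [hx3]; norm_num
      have h3 : |y| = h + 1 := by
        rw [hy4, abs_neg, abs_of_nonneg (by linarith : (0:ℤ) ≤ h + 1)]
      rw [h2, h3] at hq
      omega
    · have h1 : -x = 2 + h * s := by rw [hxe]; ring
      have h2 : (h - 2) * 1 ≤ (h - 2) * s := mul_le_mul_of_nonneg_left (by omega) (by linarith)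
      nlinarith

lemma core_even (h x y z : ℤ) (hh : 2 ≤ h) (hev : Even h)
    (heq : x * 1 + y * h + z * (h ^ 2 + h + 1) = 0)
    (hle : |x| + |y| + |z| ≤ 2 * h) (hpar : Even (|x| + |y| + |z|)) : x = 0 ∧ y = 0 ∧ z = 0 := by
  rcases le_total 0 z with hz | hz
  · exact core_even_aux h x y z hh hev hz (by linarith) hle hpar
  · have := core_even_aux h (-x) (-y) (-z) hh hev (by linarith) (by linarith)
      (by simpa only [abs_neg] using hle) (by simpa only [abs_neg] using hpar)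
    omega

lemma core_odd (h x y z : ℤ) (hh : 1 ≤ h) (hodd : Odd h)
    (heq : x * 2 + y * h + z * (h ^ 2 + h + 4) = 0)
    (hle : |x| + |y| + |z| ≤ 2 * h) (hpar : Even (|x| + |y| + |z|)) : x = 0 ∧ y = 0 ∧ z = 0 := by
  rcases le_total 0 z with hz | hz
  · exact core_odd_aux h x y z hh hodd hz (by linarith) hle hpar
  · have := core_odd_aux h (-x) (-y) (-z) hh hodd (by linarith) (by linarith)
      (by simpa only [abs_neg] using hle) (by simpa only [abs_neg] using hpar)
    omega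

/-- Reduction: three positive integers `a1, a2 ≤ a3` with no short even relation give a
`B_h` set over `Z` in `Z_n` for all `n > 2 h a3`. -/
lemma isSignedBh_of_core (n h : ℕ) (a1 a2 a3 : ℤ) (h1 : 0 < a1) (h2 : 0 < a2)
    (h13 : a1 < a3) (h23 : a2 < a3) (h12 : a1 ≠ a2) (hh : 0 < h) (hn : 2 * (h : ℤ) * a3 < n)
    (hcore : ∀ x y z : ℤ, x * a1 + y * a2 + z * a3 = 0 → |x| + |y| + |z| ≤ 2 * (h : ℤ) →
      Even (|x| + |y| + |z|) → x = 0 ∧ y = 0 ∧ z = 0) :
    IsSignedBh n 3 h ![(a1 : ZMod n), (a2 : ZMod n), (a3 : ZMod n)] := by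
  have ha3 : a3 < n := by
    have : (1 : ℤ) ≤ h := by exact_mod_cast hh
    nlinarith
  have key : ∀ b c : ℤ, |b - c| < n → (b : ZMod n) = (c : ZMod n) → b = c := by
    intro b c hlt heq
    have h3 : (n : ℤ) ∣ b - c := by
      have := (ZMod.intCast_eq_intCast_iff_dvd_sub c b n).mp heq.symm
      exact this
    have h4 := Int.eq_zero_of_abs_lt_dvd h3 hlt
    omega
  refine ⟨?_, ?_⟩
  · intro i j hij
    fin_cases i <;> fin_cases j <;> simp at hij ⊢
    · exact h12 (key _ _ (by rw [abs_lt]; constructor <;> omega) hij)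
    · exact h13.ne (key _ _ (by rw [abs_lt]; constructor <;> omega) hij)
    · exact h12.symm (key _ _ (by rw [abs_lt]; constructor <;> omega) hij)
    · exact h23.ne (key _ _ (by rw [abs_lt]; constructor <;> omega) hij)
    · exact h13.ne' (key _ _ (by rw [abs_lt]; constructor <;> omega) hij)
    · exact h23.ne' (key _ _ (by rw [abs_lt]; constructor <;> omega) hij)
  · intro l hl l' hl' heq
    simp only [ZVec, Set.mem_ofPred_eq, Fin.sum_univ_three] at hl hl'
    simp only [Fin.sum_univ_three, zsmul_eq_mul, Matrix.cons_val_zero, Matrix.cons_val_one,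
      Matrix.cons_val] at heq
    set x := l 0 - l' 0 with hx
    set y := l 1 - l' 1 with hy
    set z := l 2 - l' 2 with hz
    have hle : |x| + |y| + |z| ≤ 2 * (h : ℤ) := by
      have e1 : |x| ≤ |l 0| + |l' 0| := by rw [hx]; exact abs_sub _ _
      have e2 : |y| ≤ |l 1| + |l' 1| := by rw [hy]; exact abs_sub _ _
      have e3 : |z| ≤ |l 2| + |l' 2| := by rw [hz]; exact abs_sub _ _
      linarith
    have hpar : Even (|x| + |y| + |z|) := by
      have e : ∀ u v : ℤ, ∃ t : ℤ, |u - v| = |u| + |v| - 2 * t := by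
        intro u v
        rcases abs_cases (u - v) with ⟨e1, _⟩ | ⟨e1, _⟩ <;>
        rcases abs_cases u with ⟨e2, _⟩ | ⟨e2, _⟩ <;>
        rcases abs_cases v with ⟨e3, _⟩ | ⟨e3, _⟩ <;> rw [e1, e2, e3]
        · exact ⟨v, by ring⟩
        · exact ⟨0, by ring⟩
        · exact ⟨v - u, by ring⟩
        · exact ⟨-u, by ring⟩
        · exact ⟨u, by ring⟩
        · exact ⟨u - v, by ring⟩
        · exact ⟨0, by ring⟩
        · exact ⟨-v, by ring⟩
      obtain ⟨t1, ht1⟩ := e (l 0) (l' 0)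
      obtain ⟨t2, ht2⟩ := e (l 1) (l' 1)
      obtain ⟨t3, ht3⟩ := e (l 2) (l' 2)
      rw [hx, hy, hz, ht1, ht2, ht3]
      refine ⟨h - t1 - t2 - t3, ?_⟩
      linarith
    have hsum : (((x * a1 + y * a2 + z * a3 : ℤ)) : ZMod n) = ((0 : ℤ) : ZMod n) := by
      rw [hx, hy, hz]
      push_cast
      linear_combination heq
    have hzero : x * a1 + y * a2 + z * a3 = 0 := by
      refine key _ _ ?_ hsum
      rw [sub_zero]
      have e1 : |x * a1 + y * a2 + z * a3| ≤ |x * a1| + |y * a2| + |z * a3| := abs_add_three _ _ _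
      rw [abs_mul, abs_mul, abs_mul, abs_of_pos h1, abs_of_pos h2, abs_of_pos (h1.trans h13)] at e1
      have e2 : |x| * a1 ≤ |x| * a3 := mul_le_mul_of_nonneg_left h13.le (abs_nonneg _)
      have e3 : |y| * a2 ≤ |y| * a3 := mul_le_mul_of_nonneg_left h23.le (abs_nonneg _)
      have e4 : (|x| + |y| + |z|) * a3 ≤ 2 * (h : ℤ) * a3 :=
        mul_le_mul_of_nonneg_right hle (h1.trans h13).le
      linarith
    obtain ⟨r1, r2, r3⟩ := hcore x y z hzero hle hpar
    funext i
    fin_cases i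
    · show l 0 = l' 0
      omega
    · show l 1 = l' 1
      omega
    · show l 2 = l' 2
      omega

/-- Day's set is a `B_h` set over `Z` in `Z_n` for `n ≥ 2h^3+2h^2+8h+1`. -/
lemma exists_isSignedBh (n h : ℕ) (hh : 0 < h) (hn : 2 * h ^ 3 + 2 * h ^ 2 + 8 * h + 1 ≤ n) :
    ∃ a : Fin 3 → ZMod n, IsSignedBh n 3 h a := by
  have hn' : 2 * (h : ℤ) ^ 3 + 2 * (h : ℤ) ^ 2 + 8 * (h : ℤ) + 1 ≤ n := by exact_mod_cast hn
  have hh' : (1 : ℤ) ≤ h := by exact_mod_cast hh
  rcases Nat.even_or_odd h with hev | hodd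
  · have hev' : Even (h : ℤ) := by exact_mod_cast hev
    have hh2 : (2 : ℤ) ≤ h := by
      obtain ⟨k, hk⟩ := hev'
      omega
    exact ⟨_, isSignedBh_of_core n h 1 h ((h : ℤ) ^ 2 + h + 1) (by norm_num) (by linarith)
      (by nlinarith) (by nlinarith) (by linarith) hh (by nlinarith)
      (fun x y z e1 e2 e3 => core_even h x y z hh2 hev' e1 e2 e3)⟩
  · have hodd' : Odd (h : ℤ) := by exact_mod_cast hodd
    exact ⟨_, isSignedBh_of_core n h 2 h ((h : ℤ) ^ 2 + h + 4) (by norm_num) (by linarith)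
      (by nlinarith) (by nlinarith) (by
        obtain ⟨k, hk⟩ := hodd'
        omega) hh (by nlinarith)
      (fun x y z e1 e2 e3 => core_odd h x y z hh' hodd' e1 e2 e3)⟩

lemma three_le_sigmaPM (n h : ℕ) (hh : 0 < h) (hn : 2 * h ^ 3 + 2 * h ^ 2 + 8 * h + 1 ≤ n) :
    3 ≤ sigmaPM n h := by
  have hn0 : n ≠ 0 := by
    rintro rfl
    omega
  have : NeZero n := ⟨hn0⟩
  refine le_csSup ?_ (exists_isSignedBh n h hh hn)
  refine ⟨n, ?_⟩
  rintro m ⟨a, ha⟩
  have := Fintype.card_le_of_injective a ha.1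
  simpa [ZMod.card] using this

/-- **Day's bound.** For every positive integer `h`, the integer `g_±(3,h)` exists and
`g_±(3,h) ≤ 2h^3 + 2h^2 + 8h + 1`. -/
theorem result (h : ℕ) (hh : 0 < h) :
    IsLeast {g : ℕ | 0 < g ∧ ∀ n : ℕ, g ≤ n → 3 ≤ sigmaPM n h} (gPM 3 h) ∧
      gPM 3 h ≤ 2 * h ^ 3 + 2 * h ^ 2 + 8 * h + 1 := by
  have hmem : (2 * h ^ 3 + 2 * h ^ 2 + 8 * h + 1) ∈
      {g : ℕ | 0 < g ∧ ∀ n : ℕ, g ≤ n → 3 ≤ sigmaPM n h} :=
    ⟨by omega, fun n hn => three_le_sigmaPM n h hh hn⟩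
  exact ⟨⟨Nat.sInf_mem ⟨_, hmem⟩, fun g hg => Nat.sInf_le hg⟩, Nat.sInf_le hmem⟩

end Pool.Agent.Results.MP_66a881_co.DayBound
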